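import Pool.Agent.W23.PL.Defs

/-!
PL project, task FIX: all moduli up to `N^θ`, from the statement BXB for one block.
-/

set_option autoImplicit false

namespace Pool.Agent.U212.PL

open Finset Pool.Agent.H442R2 Pool.Agent.H442R2.KF Pool.Agent.W23.DC Pool.Agent.W23.PL

theorem block (D : ℕ → ℕ) (I d : ℕ) (h0 : D 0 < d) (hI : d ≤ D I) :
    ∃ i ∈ Finset.range I, D i < d ∧ d ≤ D (i + 1) := by
  induction I with
  | zero => omega
  | succ I ih =>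
    by_cases h : d ≤ D I
    · obtain ⟨i, hi, h1, h2⟩ := ih h
      exact ⟨i, Finset.mem_range.2 (by have := Finset.mem_range.1 hi; omega), h1, h2⟩
    · exact ⟨I, Finset.mem_range.2 (by omega), by omega, hI⟩

/-- the Bessel inequality for all families of moduli with the property `P` -/
def QB (P : ℝ → ℕ → ℕ → Prop) : Prop := ∀ A₀ : ℝ, 0 < A₀ → ∃ εs : ℝ, 0 < εs ∧
    ∀ ε₁ : ℝ, 0 < ε₁ → ε₁ ≤ εs → ∃ C : ℝ, 0 < C ∧ ∀ B : ℕ, 40 ≤ B → ∃ N₀ : ℕ, ∀ N : ℕ, N₀ ≤ N →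
    ∀ f : ℕ → ℝ, (∀ p, |f p| ≤ 1) → ∀ A : Finset ℤ,
    (∀ a ∈ A, a ≠ 0 ∧ |(a : ℝ)| ≤ N - (N : ℝ) ^ (1 / 2 : ℝ)) → ∀ T : ℤ → Finset ℕ,
    (∀ a ∈ A, ∀ d ∈ T a, P ε₁ N d) →
    ∑ a ∈ A, (∑ d ∈ T a, |BX.Df (fun p => f p * xx (P1 N B ε₁) (p - a)) N a d|) ^ 2 ≤
      (N / Real.log N) ^ 2 * (C * VV (P1 N B ε₁) +
        Real.exp (-(A₀ / ε₁)) * VV (P1 N B ε₁) ^ 2 * A.card)

theorem QB_mono (P P' : ℝ → ℕ → ℕ → Prop) (h : ∀ ε₁ N d, 2 ≤ N → P' ε₁ N d → P ε₁ N d)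
    (hP : QB P) : QB P' := by
  intro A₀ hA₀
  obtain ⟨εs, hεs, H⟩ := hP A₀ hA₀
  refine ⟨εs, hεs, fun ε₁ h1 h2 => ?_⟩
  obtain ⟨C, hC, H⟩ := H ε₁ h1 h2
  refine ⟨C, hC, fun B hB => ?_⟩
  obtain ⟨N₀, H⟩ := H B hB
  refine ⟨max N₀ 2, fun N hN f hf A hA T hT => H N (le_trans (le_max_left _ _) hN) f hf A hA T ?_⟩
  exact fun a ha d hd => h ε₁ N d (le_trans (le_max_right _ _) hN) (hT a ha d hd)

theorem VV_nonneg (N B : ℕ) (ε₁ : ℝ) : 0 ≤ VV (P1 N B ε₁) := by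
  unfold VV
  apply Finset.prod_nonneg
  intro p hp
  have hp1 : p.Prime := (Finset.mem_filter.1 hp).2.1
  have h2 : (2 : ℝ) ≤ p := by exact_mod_cast hp1.two_le
  have h3 : 1 / (p : ℝ) ≤ 1 := by
    rw [div_le_one (by linarith)]; linarith
  linarith

theorem exp_half {ε₁ A₀ : ℝ} (h0 : 0 < ε₁) (h1 : ε₁ ≤ 1) :
    2 * Real.exp (-((A₀ + 1) / ε₁)) ≤ Real.exp (-(A₀ / ε₁)) := by
  have e : Real.exp (-(A₀ / ε₁)) = Real.exp (1 / ε₁) * Real.exp (-((A₀ + 1) / ε₁)) := by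
    rw [← Real.exp_add]; congr 1; field_simp; ring
  rw [e]
  apply mul_le_mul_of_nonneg_right _ (Real.exp_pos _).le
  have h2 : 1 ≤ 1 / ε₁ := by rw [le_div_iff₀ h0]; linarith
  have h3 := Real.add_one_le_exp (1 / ε₁)
  linarith

theorem exp_sq {ε₁ A₀ M : ℝ} (h0 : 0 < ε₁) (hM : 0 ≤ M) (h1 : ε₁ ≤ 1 / (M + 1)) :
    M * Real.exp (-((A₀ + 1) / ε₁)) ≤ Real.exp (-(A₀ / ε₁)) := by
  have e : Real.exp (-(A₀ / ε₁)) = Real.exp (1 / ε₁) * Real.exp (-((A₀ + 1) / ε₁)) := by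
    rw [← Real.exp_add]; congr 1; field_simp; ring
  rw [e]
  apply mul_le_mul_of_nonneg_right _ (Real.exp_pos _).le
  have h2 : M + 1 ≤ 1 / ε₁ := by
    rw [le_div_iff₀ h0]
    rw [le_div_iff₀ (by linarith)] at h1
    linarith
  have h3 := Real.add_one_le_exp (1 / ε₁)
  linarith

theorem QB_or (P P' : ℝ → ℕ → ℕ → Prop) (hP : QB P) (hP' : QB P') :
    QB (fun ε₁ N d => P ε₁ N d ∨ P' ε₁ N d) := by
  classical
  intro A₀ hA₀
  obtain ⟨εs, hεs, H⟩ := hP (A₀ + 1) (by linarith)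
  obtain ⟨εs', hεs', H'⟩ := hP' (A₀ + 1) (by linarith)
  refine ⟨min (min εs εs') (1 / 5), lt_min (lt_min hεs hεs') (by norm_num), ?_⟩
  intro ε₁ h1 h2
  have h2a : ε₁ ≤ εs := h2.trans ((min_le_left _ _).trans (min_le_left _ _))
  have h2b : ε₁ ≤ εs' := h2.trans ((min_le_left _ _).trans (min_le_right _ _))
  have h2c : ε₁ ≤ 1 / 5 := h2.trans (min_le_right _ _)
  obtain ⟨C, hC, H⟩ := H ε₁ h1 h2a
  obtain ⟨C', hC', H'⟩ := H' ε₁ h1 h2b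
  refine ⟨2 * (C + C'), by positivity, fun B hB => ?_⟩
  obtain ⟨N₀, H⟩ := H B hB
  obtain ⟨N₀', H'⟩ := H' B hB
  refine ⟨max N₀ N₀', ?_⟩
  intro N hN f hf A hA T hT
  have k1 := H N (le_trans (le_max_left _ _) hN) f hf A hA
    (fun a => (T a).filter (fun d => P ε₁ N d)) (by
      intro a _ d hd
      exact (Finset.mem_filter.1 hd).2)
  have k2 := H' N (le_trans (le_max_right _ _) hN) f hf A hA
    (fun a => (T a).filter (fun d => ¬ P ε₁ N d)) (by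
      intro a ha d hd
      rcases hT a ha d (Finset.mem_filter.1 hd).1 with h | h
      · exact absurd h (Finset.mem_filter.1 hd).2
      · exact h)
  have hV := VV_nonneg N B ε₁
  have hA0 : (0 : ℝ) ≤ A.card := Nat.cast_nonneg _
  have hQ : 0 ≤ ((N : ℝ) / Real.log N) ^ 2 := by positivity
  have hsplit : ∀ a ∈ A, (∑ d ∈ T a, |BX.Df (fun p => f p * xx (P1 N B ε₁) (p - a)) N a d|) ^ 2 ≤
      2 * (∑ d ∈ (T a).filter (fun d => P ε₁ N d),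
        |BX.Df (fun p => f p * xx (P1 N B ε₁) (p - a)) N a d|) ^ 2 +
      2 * (∑ d ∈ (T a).filter (fun d => ¬ P ε₁ N d),
        |BX.Df (fun p => f p * xx (P1 N B ε₁) (p - a)) N a d|) ^ 2 := by
    intro a _
    rw [← Finset.sum_filter_add_sum_filter_not (T a) (fun d => P ε₁ N d)]
    nlinarith [sq_nonneg (∑ d ∈ (T a).filter (fun d => P ε₁ N d),
        |BX.Df (fun p => f p * xx (P1 N B ε₁) (p - a)) N a d| -
      ∑ d ∈ (T a).filter (fun d => ¬ P ε₁ N d),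
        |BX.Df (fun p => f p * xx (P1 N B ε₁) (p - a)) N a d|)]
  have hexp : 4 * Real.exp (-((A₀ + 1) / ε₁)) ≤ Real.exp (-(A₀ / ε₁)) :=
    exp_sq h1 (by norm_num) (by norm_num; norm_num at h2c; exact h2c)
  calc ∑ a ∈ A, (∑ d ∈ T a, |BX.Df (fun p => f p * xx (P1 N B ε₁) (p - a)) N a d|) ^ 2
      ≤ ∑ a ∈ A, (2 * (∑ d ∈ (T a).filter (fun d => P ε₁ N d),
          |BX.Df (fun p => f p * xx (P1 N B ε₁) (p - a)) N a d|) ^ 2 +
        2 * (∑ d ∈ (T a).filter (fun d => ¬ P ε₁ N d),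
          |BX.Df (fun p => f p * xx (P1 N B ε₁) (p - a)) N a d|) ^ 2) :=
        Finset.sum_le_sum hsplit
    _ = 2 * ∑ a ∈ A, (∑ d ∈ (T a).filter (fun d => P ε₁ N d),
          |BX.Df (fun p => f p * xx (P1 N B ε₁) (p - a)) N a d|) ^ 2 +
        2 * ∑ a ∈ A, (∑ d ∈ (T a).filter (fun d => ¬ P ε₁ N d),
          |BX.Df (fun p => f p * xx (P1 N B ε₁) (p - a)) N a d|) ^ 2 := by
        rw [Finset.sum_add_distrib, Finset.mul_sum, Finset.mul_sum]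
    _ ≤ 2 * ((N / Real.log N) ^ 2 * (C * VV (P1 N B ε₁) +
        Real.exp (-((A₀ + 1) / ε₁)) * VV (P1 N B ε₁) ^ 2 * A.card)) +
        2 * ((N / Real.log N) ^ 2 * (C' * VV (P1 N B ε₁) +
        Real.exp (-((A₀ + 1) / ε₁)) * VV (P1 N B ε₁) ^ 2 * A.card)) := by
        linarith
    _ = (N / Real.log N) ^ 2 * (2 * (C + C') * VV (P1 N B ε₁) +
        (4 * Real.exp (-((A₀ + 1) / ε₁))) * (VV (P1 N B ε₁) ^ 2 * A.card)) := by ring
    _ ≤ (N / Real.log N) ^ 2 * (2 * (C + C') * VV (P1 N B ε₁) +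
        Real.exp (-(A₀ / ε₁)) * (VV (P1 N B ε₁) ^ 2 * A.card)) := by
        apply mul_le_mul_of_nonneg_left _ hQ
        have := mul_le_mul_of_nonneg_right hexp (show 0 ≤ VV (P1 N B ε₁) ^ 2 * (A.card : ℝ) by positivity)
        linarith
    _ = _ := by ring

/-- all moduli up to `N^θ`, from one block -/
theorem QB_fac (hBXB : St_BXB) (θ δ : ℝ) (hθ1 : 0 < θ) (hθ2 : θ < 5 / 9) (hδ : 0 < δ) :
    QB (fun ε₁ N d => (d : ℝ) ≤ (N : ℝ) ^ θ ∧ 1 < d ∧ (∀ p : ℕ, p.Prime → p ∣ d → ε₁ ≤ tt N p) ∧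
      (θ ≤ 51 / 100 ∨ FX.FacD N θ δ d)) := by
  classical
  intro A₀ hA₀
  obtain ⟨ε₀, εs, hε₀, hεs, hbk⟩ := hBXB θ δ (A₀ + 1) hθ1 hθ2 hδ (by linarith)
  obtain ⟨κ, hκdef⟩ : ∃ κ : ℝ, κ = ε₀ / 2 := ⟨_, rfl⟩
  have hκ : 0 < κ := by rw [hκdef]; linarith
  obtain ⟨I, hIdef⟩ : ∃ I : ℕ, I = ⌈1 / κ⌉₊ := ⟨_, rfl⟩
  have hI1 : 1 ≤ (I : ℝ) * κ := by
    have h : 1 / κ ≤ (I : ℝ) := by rw [hIdef]; exact Nat.le_ceil _
    rwa [div_le_iff₀ hκ] at h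
  refine ⟨min εs (1 / ((I : ℝ) ^ 2 + 1)), lt_min hεs (by positivity), ?_⟩
  intro ε₁ h1 h2
  have h2a : ε₁ ≤ εs := h2.trans (min_le_left _ _)
  have h2b : ε₁ ≤ 1 / ((I : ℝ) ^ 2 + 1) := h2.trans (min_le_right _ _)
  have hexp : (I : ℝ) ^ 2 * Real.exp (-((A₀ + 1) / ε₁)) ≤ Real.exp (-(A₀ / ε₁)) :=
    exp_sq h1 (by positivity) h2b
  obtain ⟨C, hC, hbk⟩ := hbk ε₁ h1 h2a
  refine ⟨(I : ℝ) ^ 2 * C + 1, by positivity, fun B hB => ?_⟩
  obtain ⟨N₀, hbk⟩ := hbk B hB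
  obtain ⟨N₁, hN₁def⟩ : ∃ N₁ : ℕ, N₁ = ⌈(2 : ℝ) ^ (1 / κ)⌉₊ := ⟨_, rfl⟩
  refine ⟨max N₀ (max N₁ 2), ?_⟩
  intro N hN f hf A hA T hT
  have hNN₀ : N₀ ≤ N := le_trans (le_max_left _ _) hN
  have hNN₁ : N₁ ≤ N := le_trans (le_trans (le_max_left _ _) (le_max_right _ _)) hN
  have hNN₂ : 2 ≤ N := le_trans (le_trans (le_max_right _ _) (le_max_right _ _)) hN
  have hN1 : (1 : ℝ) ≤ N := by exact_mod_cast (by omega : 1 ≤ N)
  have hN2 : (2 : ℝ) ≤ N := by exact_mod_cast hNN₂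
  have hN0 : (0 : ℝ) < N := by linarith
  have hlarge : (2 : ℝ) ^ (1 / κ) ≤ N := by
    have h : (2 : ℝ) ^ (1 / κ) ≤ (N₁ : ℝ) := by rw [hN₁def]; exact Nat.le_ceil _
    exact h.trans (by exact_mod_cast hNN₁)
  have hV := VV_nonneg N B ε₁
  have hA0 : (0 : ℝ) ≤ A.card := Nat.cast_nonneg _
  have hQ : 0 ≤ ((N : ℝ) / Real.log N) ^ 2 := by positivity
  have hTle : ∀ a ∈ A, ∀ d ∈ T a, (d : ℝ) ≤ (N : ℝ) ^ θ := fun a ha d hd => (hT a ha d hd).1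
  have hN2' : 2 ≤ (N : ℝ) ^ κ := by
    calc (2 : ℝ) = ((2 : ℝ) ^ (1 / κ)) ^ κ := by
          rw [← Real.rpow_mul (by norm_num)]
          rw [one_div, inv_mul_cancel₀ hκ.ne', Real.rpow_one]
      _ ≤ (N : ℝ) ^ κ := Real.rpow_le_rpow (by positivity) hlarge hκ.le
  obtain ⟨D, hD⟩ : ∃ D : ℕ → ℕ, ∀ i, D i = ⌊(N : ℝ) ^ ((i : ℝ) * κ)⌋₊ := ⟨_, fun _ => rfl⟩
  have hD1 : ∀ i, 1 ≤ D i := by
    intro i
    rw [hD]
    apply Nat.le_floor
    rw [Nat.cast_one]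
    exact Real.one_le_rpow hN1 (by positivity)
  have hD0 : D 0 = 1 := by
    rw [hD]; simp
  have hDI : ∀ a ∈ A, ∀ d ∈ T a, d ≤ D I := by
    intro a ha d hd
    rw [hD]
    apply Nat.le_floor
    calc (d : ℝ) ≤ (N : ℝ) ^ θ := hTle a ha d hd
      _ ≤ (N : ℝ) ^ ((I : ℝ) * κ) :=
        Real.rpow_le_rpow_of_exponent_le hN1 (by linarith)
  have hratio : ∀ i, (D (i + 1) : ℝ) ≤ (N : ℝ) ^ ε₀ * D i := by
    intro i
    have h1 : (D (i + 1) : ℝ) ≤ (N : ℝ) ^ (((i + 1 : ℕ) : ℝ) * κ) := by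
      rw [hD]; exact Nat.floor_le (by positivity)
    have h2 : (N : ℝ) ^ ((i : ℝ) * κ) ≤ 2 * D i := by
      have h3 : (N : ℝ) ^ ((i : ℝ) * κ) < (D i : ℝ) + 1 := by
        rw [hD]; exact Nat.lt_floor_add_one _
      have h4 : (1 : ℝ) ≤ D i := by exact_mod_cast hD1 i
      linarith
    calc (D (i + 1) : ℝ) ≤ (N : ℝ) ^ (((i + 1 : ℕ) : ℝ) * κ) := h1
      _ = (N : ℝ) ^ κ * (N : ℝ) ^ ((i : ℝ) * κ) := by
          rw [← Real.rpow_add hN0]; congr 1; push_cast; ring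
      _ ≤ (N : ℝ) ^ κ * (2 * D i) := mul_le_mul_of_nonneg_left h2 (by positivity)
      _ = ((N : ℝ) ^ κ * 2) * D i := by ring
      _ ≤ ((N : ℝ) ^ κ * (N : ℝ) ^ κ) * D i := by
          apply mul_le_mul_of_nonneg_right _ (Nat.cast_nonneg _)
          exact mul_le_mul_of_nonneg_left hN2' (by positivity)
      _ = (N : ℝ) ^ ε₀ * D i := by
          rw [← Real.rpow_add hN0]; congr 2; rw [hκdef]; ring
  obtain ⟨Tb, hTb⟩ : ∃ Tb : ℕ → ℤ → Finset ℕ, ∀ i a,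
      Tb i a = (T a).filter (fun d => D i < d ∧ d ≤ D (i + 1)) := ⟨_, fun _ _ => rfl⟩
  have hblock : ∀ i, ∑ a ∈ A, (∑ d ∈ Tb i a,
      |BX.Df (fun p => f p * xx (P1 N B ε₁) (p - a)) N a d|) ^ 2 ≤
      (N / Real.log N) ^ 2 * (C * VV (P1 N B ε₁) +
        Real.exp (-((A₀ + 1) / ε₁)) * VV (P1 N B ε₁) ^ 2 * A.card) := by
    intro i
    apply hbk N (D i) (min (D (i + 1)) ⌊(N : ℝ) ^ θ⌋₊) hNN₀
    · calc ((min (D (i + 1)) ⌊(N : ℝ) ^ θ⌋₊ : ℕ) : ℝ) ≤ (⌊(N : ℝ) ^ θ⌋₊ : ℝ) := by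
            exact_mod_cast min_le_right _ _
        _ ≤ (N : ℝ) ^ θ := Nat.floor_le (by positivity)
    · exact hD1 i
    · calc ((min (D (i + 1)) ⌊(N : ℝ) ^ θ⌋₊ : ℕ) : ℝ) ≤ (D (i + 1) : ℝ) := by
            exact_mod_cast min_le_left _ _
        _ ≤ _ := hratio i
    · exact hf
    · exact hA
    · intro a ha d hd
      rw [hTb, Finset.mem_filter] at hd
      exact ⟨(hT a ha d hd.1).2.1, hd.2.1, le_min hd.2.2 (Nat.le_floor (hTle a ha d hd.1)),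
        (hT a ha d hd.1).2.2.1, (hT a ha d hd.1).2.2.2⟩
  have hsplit : ∀ a ∈ A, ∑ d ∈ T a, |BX.Df (fun p => f p * xx (P1 N B ε₁) (p - a)) N a d| ≤
      ∑ i ∈ Finset.range I, ∑ d ∈ Tb i a,
        |BX.Df (fun p => f p * xx (P1 N B ε₁) (p - a)) N a d| := by
    intro a ha
    have hrw : ∑ i ∈ Finset.range I, ∑ d ∈ Tb i a,
        |BX.Df (fun p => f p * xx (P1 N B ε₁) (p - a)) N a d| =
        ∑ d ∈ T a, ∑ i ∈ Finset.range I,
          (if D i < d ∧ d ≤ D (i + 1) then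
            |BX.Df (fun p => f p * xx (P1 N B ε₁) (p - a)) N a d| else 0) := by
      rw [Finset.sum_comm]
      apply Finset.sum_congr rfl
      intro i _
      rw [hTb, Finset.sum_filter]
    rw [hrw]
    apply Finset.sum_le_sum
    intro d hd
    obtain ⟨i, hi, h1, h2⟩ := block D I d (by
      rw [hD0]; exact (hT a ha d hd).2.1) (hDI a ha d hd)
    have h3 := Finset.single_le_sum (f := fun i =>
      (if D i < d ∧ d ≤ D (i + 1) then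
        |BX.Df (fun p => f p * xx (P1 N B ε₁) (p - a)) N a d| else 0))
      (fun j _ => by
        show 0 ≤ (if D j < d ∧ d ≤ D (j + 1) then
          |BX.Df (fun p => f p * xx (P1 N B ε₁) (p - a)) N a d| else 0)
        split_ifs
        · exact abs_nonneg _
        · exact le_refl _) hi
    have h4 : (if D i < d ∧ d ≤ D (i + 1) then
        |BX.Df (fun p => f p * xx (P1 N B ε₁) (p - a)) N a d| else 0) =
        |BX.Df (fun p => f p * xx (P1 N B ε₁) (p - a)) N a d| :=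
      if_pos ⟨h1, h2⟩
    calc |BX.Df (fun p => f p * xx (P1 N B ε₁) (p - a)) N a d| =
        (if D i < d ∧ d ≤ D (i + 1) then
          |BX.Df (fun p => f p * xx (P1 N B ε₁) (p - a)) N a d| else 0) := h4.symm
      _ ≤ _ := h3
  calc ∑ a ∈ A, (∑ d ∈ T a, |BX.Df (fun p => f p * xx (P1 N B ε₁) (p - a)) N a d|) ^ 2
      ≤ ∑ a ∈ A, (∑ i ∈ Finset.range I, ∑ d ∈ Tb i a,
          |BX.Df (fun p => f p * xx (P1 N B ε₁) (p - a)) N a d|) ^ 2 :=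
        Finset.sum_le_sum (fun a ha => pow_le_pow_left₀
          (Finset.sum_nonneg (fun _ _ => abs_nonneg _)) (hsplit a ha) 2)
    _ ≤ ∑ a ∈ A, (I : ℝ) * ∑ i ∈ Finset.range I, (∑ d ∈ Tb i a,
          |BX.Df (fun p => f p * xx (P1 N B ε₁) (p - a)) N a d|) ^ 2 := by
        apply Finset.sum_le_sum
        intro a _
        have := sq_sum_le_card_mul_sum_sq (s := Finset.range I)
          (f := fun i => ∑ d ∈ Tb i a, |BX.Df (fun p => f p * xx (P1 N B ε₁) (p - a)) N a d|)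
        simpa using this
    _ = (I : ℝ) * ∑ i ∈ Finset.range I, ∑ a ∈ A, (∑ d ∈ Tb i a,
          |BX.Df (fun p => f p * xx (P1 N B ε₁) (p - a)) N a d|) ^ 2 := by
        rw [← Finset.mul_sum, Finset.sum_comm]
    _ ≤ (I : ℝ) * ∑ i ∈ Finset.range I, ((N / Real.log N) ^ 2 * (C * VV (P1 N B ε₁) +
          Real.exp (-((A₀ + 1) / ε₁)) * VV (P1 N B ε₁) ^ 2 * A.card)) := by
        apply mul_le_mul_of_nonneg_left _ (Nat.cast_nonneg _)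
        exact Finset.sum_le_sum (fun i _ => hblock i)
    _ = (N / Real.log N) ^ 2 * (((I : ℝ) ^ 2 * C) * VV (P1 N B ε₁) +
          ((I : ℝ) ^ 2 * Real.exp (-((A₀ + 1) / ε₁))) * (VV (P1 N B ε₁) ^ 2 * A.card)) := by
        rw [Finset.sum_const, Finset.card_range, nsmul_eq_mul]; ring
    _ ≤ (N / Real.log N) ^ 2 * (((I : ℝ) ^ 2 * C + 1) * VV (P1 N B ε₁) +
          Real.exp (-(A₀ / ε₁)) * (VV (P1 N B ε₁) ^ 2 * A.card)) := by
        apply mul_le_mul_of_nonneg_left _ hQ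
        have := mul_le_mul_of_nonneg_right hexp
          (show 0 ≤ VV (P1 N B ε₁) ^ 2 * (A.card : ℝ) by positivity)
        linarith
    _ = _ := by ring

/-- in a narrow window the condition `FacO` gives `FacD` -/
theorem facD_of_facO (N : ℕ) (hN : 1 ≤ N) (θ δ κ : ℝ) (hκ0 : 0 < κ) (hκ : κ ≤ δ / 14) (d : ℕ)
    (h1 : (N : ℝ) ^ (θ - κ) < d) (h : FacO N δ d) : FX.FacD N θ (δ / 2) d := by
  obtain ⟨hsq, s, hs, hlo, hup⟩ := h
  have hN1 : (1 : ℝ) ≤ N := by exact_mod_cast hN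
  have hN0 : (0 : ℝ) < N := by linarith
  have hp : 0 < (N : ℝ) ^ (θ - κ) := Real.rpow_pos_of_pos hN0 _
  refine ⟨hsq, s, hs, ?_, ?_⟩
  · calc (N : ℝ) ^ (2 * θ - 1 + δ / 2) ≤ (N : ℝ) ^ (2 * (θ - κ) + (δ - 1)) :=
          Real.rpow_le_rpow_of_exponent_le hN1 (by linarith)
      _ = ((N : ℝ) ^ (θ - κ)) ^ 2 * (N : ℝ) ^ (δ - 1) := by
          rw [Real.rpow_add hN0, ← Real.rpow_natCast, ← Real.rpow_mul hN0.le]
          congr 2
          push_cast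
          ring
      _ ≤ (d : ℝ) ^ 2 * (N : ℝ) ^ (δ - 1) := by
          apply mul_le_mul_of_nonneg_right _ (Real.rpow_nonneg hN0.le _)
          exact pow_le_pow_left₀ hp.le h1.le 2
      _ ≤ s := hlo
  · have h7 : 0 < ((N : ℝ) ^ (θ - κ)) ^ 7 := by positivity
    have e1 : (s : ℝ) * ((N : ℝ) ^ (θ - κ)) ^ 7 ≤ (N : ℝ) ^ (4 - δ) := by
      calc (s : ℝ) * ((N : ℝ) ^ (θ - κ)) ^ 7 ≤ (s : ℝ) * (d : ℝ) ^ 7 := by
            apply mul_le_mul_of_nonneg_left _ (Nat.cast_nonneg _)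
            exact pow_le_pow_left₀ hp.le h1.le 7
        _ ≤ _ := hup
    have e2 : (N : ℝ) ^ (4 - δ) ≤ (N : ℝ) ^ (4 - 7 * θ - δ / 2) * ((N : ℝ) ^ (θ - κ)) ^ 7 := by
      rw [← Real.rpow_natCast ((N : ℝ) ^ (θ - κ)) 7, ← Real.rpow_mul hN0.le,
        ← Real.rpow_add hN0]
      apply Real.rpow_le_rpow_of_exponent_le hN1
      push_cast
      linarith
    exact le_of_mul_le_mul_right (e1.trans e2) h7

theorem FIX (hBXB : St_BXB) : St_FIX := by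
  classical
  intro θ δ A₀ hθ0 hθ hδ hA₀
  obtain ⟨κ, hκdef⟩ : ∃ κ : ℝ, κ = min (δ / 14) ((5 / 9 - θ) / 2) := ⟨_, rfl⟩
  have hκ0 : 0 < κ := by rw [hκdef]; exact lt_min (by linarith) (by linarith)
  have hκ1 : κ ≤ δ / 14 := by rw [hκdef]; exact min_le_left _ _
  have hκ2 : κ ≤ (5 / 9 - θ) / 2 := by rw [hκdef]; exact min_le_right _ _
  have key : ∀ j : ℕ, (51 / 100 : ℝ) + j * κ < 5 / 9 → QB (fun ε₁ N d =>
      (d : ℝ) ≤ (N : ℝ) ^ ((51 / 100 : ℝ) + j * κ) ∧ 1 < d ∧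
        (∀ p : ℕ, p.Prime → p ∣ d → ε₁ ≤ tt N p) ∧
        ((d : ℝ) ≤ (N : ℝ) ^ (51 / 100 : ℝ) ∨ FacO N δ d)) := by
    intro j
    induction j with
    | zero =>
      intro _
      refine QB_mono _ _ ?_ (QB_fac hBXB (51 / 100) δ (by norm_num) (by norm_num) hδ)
      intro ε₁ N d _ h
      refine ⟨?_, h.2.1, h.2.2.1, Or.inl le_rfl⟩
      have h1 := h.1
      simpa using h1
    | succ j ih =>
      intro hj
      have hκj : (51 / 100 : ℝ) + j * κ < 5 / 9 := by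
        have : (51 / 100 : ℝ) + j * κ ≤ 51 / 100 + ((j + 1 : ℕ) : ℝ) * κ := by
          push_cast; nlinarith
        linarith
      have hj0 : (0 : ℝ) ≤ j * κ := by positivity
      have hw := QB_fac hBXB (51 / 100 + ((j + 1 : ℕ) : ℝ) * κ) (δ / 2)
        (by push_cast; nlinarith) hj (by linarith)
      refine QB_mono _ _ ?_ (QB_or _ _ (ih hκj) hw)
      intro ε₁ N d hN h
      have hN1 : (1 : ℝ) ≤ N := by exact_mod_cast (by omega : 1 ≤ N)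
      rcases le_or_gt (d : ℝ) ((N : ℝ) ^ ((51 / 100 : ℝ) + j * κ)) with hd | hd
      · exact Or.inl ⟨hd, h.2.1, h.2.2.1, h.2.2.2⟩
      · refine Or.inr ⟨h.1, h.2.1, h.2.2.1, Or.inr ?_⟩
        have hFO : FacO N δ d := by
          rcases h.2.2.2 with h3 | h3
          · exfalso
            have : (N : ℝ) ^ (51 / 100 : ℝ) ≤ (N : ℝ) ^ ((51 / 100 : ℝ) + j * κ) :=
              Real.rpow_le_rpow_of_exponent_le hN1 (by linarith)
            linarith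
          · exact h3
        apply facD_of_facO N (by omega) _ δ κ hκ0 hκ1 d _ hFO
        have e : (51 / 100 : ℝ) + ((j + 1 : ℕ) : ℝ) * κ - κ = 51 / 100 + j * κ := by
          push_cast; ring
        rw [e]
        exact hd
  obtain ⟨j, hjdef⟩ : ∃ j : ℕ, j = ⌈(θ - 51 / 100) / κ⌉₊ := ⟨_, rfl⟩
  have hj1 : θ ≤ 51 / 100 + j * κ := by
    have h : (θ - 51 / 100) / κ ≤ (j : ℝ) := by rw [hjdef]; exact Nat.le_ceil _
    rw [div_le_iff₀ hκ0] at h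
    linarith
  have hj2 : (51 / 100 : ℝ) + j * κ < 5 / 9 := by
    rcases le_or_gt θ (51 / 100) with h | h
    · have : j = 0 := by
        rw [hjdef, Nat.ceil_eq_zero]
        apply div_nonpos_of_nonpos_of_nonneg (by linarith) hκ0.le
      rw [this]; norm_num
    · have h2 : (j : ℝ) < (θ - 51 / 100) / κ + 1 := by
        rw [hjdef]
        exact Nat.ceil_lt_add_one (div_nonneg (by linarith) hκ0.le)
      have h3 : (j : ℝ) * κ < ((θ - 51 / 100) / κ + 1) * κ := mul_lt_mul_of_pos_right h2 hκ0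
      have h4 : ((θ - 51 / 100) / κ + 1) * κ = θ - 51 / 100 + κ := by
        field_simp
      rw [h4] at h3
      linarith
  obtain ⟨εs, hεs, H⟩ := key j hj2 A₀ hA₀
  refine ⟨εs, hεs, fun ε₁ h1 h2 => ?_⟩
  obtain ⟨C, hC, H⟩ := H ε₁ h1 h2
  refine ⟨C, hC, fun B hB => ?_⟩
  obtain ⟨N₀, H⟩ := H B hB
  refine ⟨max N₀ 2, fun N hN f hf A hA => H N (le_trans (le_max_left _ _) hN) f hf A hA
    (fun _ => facS N θ ε₁ δ) ?_⟩
  intro a _ d hd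
  have hN2 : 2 ≤ N := le_trans (le_max_right _ _) hN
  have hN1 : (1 : ℝ) ≤ N := by exact_mod_cast (by omega : 1 ≤ N)
  rw [facS, Finset.mem_filter, Finset.mem_Icc] at hd
  refine ⟨?_, hd.2.1, hd.2.2.1, hd.2.2.2⟩
  calc (d : ℝ) ≤ (⌊(N : ℝ) ^ θ⌋₊ : ℝ) := by exact_mod_cast hd.1.2
    _ ≤ (N : ℝ) ^ θ := Nat.floor_le (by positivity)
    _ ≤ _ := Real.rpow_le_rpow_of_exponent_le hN1 hj1

end Pool.Agent.U212.PL
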